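import Mathlib

set_option autoImplicit false

open Filter Set Topology Equiv

namespace Pool.Agent.H.MP_ad338c_an

abbrev S : Type := AddCircle (1 : ℝ)

def arc (a b : ℝ) : Set S := ((↑) : ℝ → S) '' Ioo a b
def carc (a b : ℝ) : Set S := ((↑) : ℝ → S) '' Icc a b

lemma isOpen_arc (a b : ℝ) : IsOpen (arc a b) := QuotientAddGroup.isOpenMap_coe _ isOpen_Ioo
lemma isClosed_carc (a b : ℝ) : IsClosed (carc a b) :=
  (isCompact_Icc.image (AddCircle.continuous_mk' 1)).isClosed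
lemma arc_sub (a b : ℝ) : arc a b ⊆ carc a b := image_mono Ioo_subset_Icc_self
lemma norm_carc {a b r : ℝ} (ha : -r ≤ a) (hb : b ≤ r) {x : S} (hx : x ∈ carc a b) : ‖x‖ ≤ r := by
  obtain ⟨t, ht, rfl⟩ := hx
  refine QuotientAddGroup.norm_mk_le_norm.trans ?_
  rw [Real.norm_eq_abs, abs_le]
  exact ⟨ha.trans ht.1, ht.2.trans hb⟩

lemma freq {β : S} (hβ : ¬ IsOfFinAddOrder β) {U : Set S} (hU : IsOpen U) (hne : U.Nonempty)
    (p : S) : ∃ᶠ n : ℤ in atTop, p + n • β ∈ U := by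
  obtain ⟨x, hx⟩ := hne
  have hd : DenseRange (· • β : ℤ → S) :=
    AddCircle.denseRange_zsmul_iff.2 (addOrderOf_eq_zero_iff.2 hβ)
  have h1 : MapClusterPt (x - p) atTop (· • β : ℤ → S) :=
    ((mapClusterPt_atTop_nsmul_tfae (x - p) β).out 1 3).2 (hd (x - p))
  have h2 : (fun z : S => p + z) ⁻¹' U ∈ 𝓝 (x - p) :=
    (hU.preimage (by fun_prop)).mem_nhds (by simpa using hx)
  exact mapClusterPt_iff_frequently.1 h1 _ h2

lemma zsmul_eq_zero {β : S} (hβ : ¬ IsOfFinAddOrder β) {n : ℤ} (h : n • β = 0) : n = 0 := by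
  by_contra hn
  exact hβ (isOfFinAddOrder_iff_zsmul_eq_zero.2 ⟨n, hn, h⟩)

lemma ev_notMem {β : S} (hβ : ¬ IsOfFinAddOrder β) {Y : Type*} {E : Set (S ⊕ Y)} (hE : E.Finite)
    (p : S) (i : ℤ) : ∀ᶠ n : ℤ in atTop, (Sum.inl (p + (n + i) • β) : S ⊕ Y) ∉ E := by
  have hinj : Function.Injective fun n : ℤ => (Sum.inl (p + (n + i) • β) : S ⊕ Y) := by
    intro n m h
    have h1 : (n + i) • β = (m + i) • β := add_left_cancel (Sum.inl_injective h)
    have h2 : (n - m) • β = 0 := by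
      have : n - m = (n + i) - (m + i) := by ring
      rw [this, sub_smul, h1, sub_self]
    have := zsmul_eq_zero hβ h2
    omega
  have := (hE.preimage hinj.injOn).compl_mem_cofinite
  exact atTop_le_cofinite this

def IsSw (W : Set S) (γ : S) (f : Perm S) : Prop :=
  (∀ x ∈ W, f x = x + γ) ∧ (∀ x, x - γ ∈ W → f x = x - γ) ∧ ∀ x, x ∉ W → x - γ ∉ W → f x = x

lemma exists_sw {W : Set S} {γ : S} (h : ∀ x ∈ W, x + γ ∉ W) : ∃ f, IsSw W γ f ∧ f * f = 1 := by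
  classical
  let g : S → S := fun x => if x ∈ W then x + γ else if x - γ ∈ W then x - γ else x
  have h1 : ∀ x ∈ W, g x = x + γ := fun x hx => by simp [g, hx]
  have h2 : ∀ x, x - γ ∈ W → g x = x - γ := fun x hx => by
    have : x ∉ W := by simpa using h _ hx
    simp [g, hx, this]
  have h3 : ∀ x, x ∉ W → x - γ ∉ W → g x = x := fun x hx hx' => by simp [g, hx, hx']
  have hg : Function.Involutive g := by
    intro x
    by_cases hx : x ∈ W
    · rw [h1 x hx, h2 _ (by simpa using hx)]; simp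
    · by_cases hx' : x - γ ∈ W
      · rw [h2 x hx', h1 _ hx']; simp
      · rw [h3 x hx hx', h3 x hx hx']
  exact ⟨hg.toPerm, ⟨h1, h2, h3⟩, by ext x; exact hg x⟩

abbrev tr (γ : S) : Perm S := Equiv.addRight γ

structure Ctx {Y : Type*} (α : S) (H : Subgroup (Perm S)) (σ : Perm S → Perm (S ⊕ Y)) : Prop where
  inf : ¬ IsOfFinAddOrder α
  mul : ∀ f ∈ H, ∀ g ∈ H, σ (f * g) = σ f * σ g
  near : ∀ f ∈ H, {x | σ f x ≠ Sum.map f id x}.Finite
  fin : ∀ f : Perm S, {x | f x ≠ x}.Finite → f ∈ H ∧ σ f = 1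
  trm : ∀ n : ℤ, tr (n • α) ∈ H
  neg : Equiv.neg S ∈ H
  sw : ∀ a b : ℝ, (∃ n : ℤ, (a : S) = n • α) → (∃ n : ℤ, (b : S) = n • α) → ∀ k : ℤ, ∀ f,
    IsSw (arc a b) (k • α) f → f ∈ H

variable {Y : Type*} {α : S} {H : Subgroup (Perm S)} {σ : Perm S → Perm (S ⊕ Y)}

lemma Ctx.symm (c : Ctx α H σ) : Ctx (-α) H σ where
  inf := by simpa using c.inf
  mul := c.mul
  near := c.near
  fin := c.fin
  trm n := by simpa using c.trm (-n)
  neg := c.neg
  sw a b := by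
    rintro ⟨n, hn⟩ ⟨m, hm⟩ k f hf
    exact c.sw a b ⟨-n, by simpa using hn⟩ ⟨-m, by simpa using hm⟩ (-k) f (by simpa using hf)

def U (σ : Perm S → Perm (S ⊕ Y)) (α : S) (n : ℤ) : Perm (S ⊕ Y) := σ (tr (n • α))

lemma U_neg (n : ℤ) : U σ (-α) n = U σ α (-n) := by simp [U]

lemma Ctx.one (c : Ctx α H σ) : σ 1 = 1 := (c.fin 1 (by simp)).2

lemma Ctx.U_add (c : Ctx α H σ) (n m : ℤ) (y : S ⊕ Y) :
    U σ α n (U σ α m y) = U σ α (n + m) y := by
  have : tr ((n + m) • α) = tr (n • α) * tr (m • α) := by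
    ext x; simp [add_smul]; abel
  simp only [U]
  rw [this, c.mul _ (c.trm n) _ (c.trm m)]
  rfl

lemma Ctx.U_zero (c : Ctx α H σ) (y : S ⊕ Y) : U σ α 0 y = y := by
  have : tr ((0 : ℤ) • α) = 1 := by ext x; simp
  simp only [U]
  rw [this, c.one]; rfl

def Pos (σ : Perm S → Perm (S ⊕ Y)) (α : S) (y : S ⊕ Y) (p : S) : Prop :=
  ∀ᶠ n : ℤ in atTop, U σ α n y = Sum.inl (p + n • α)

def Free (σ : Perm S → Perm (S ⊕ Y)) (α : S) (y : S ⊕ Y) : Prop := ∀ n : ℤ, U σ α n y = y → n = 0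

lemma Ctx.inj (c : Ctx α H σ) {y : S ⊕ Y} (hy : Free σ α y) {n m : ℤ}
    (h : U σ α n y = U σ α m y) : n = m := by
  have := hy (-m + n) (by rw [← c.U_add, h, c.U_add]; simp [c.U_zero])
  omega

lemma Ctx.ray (c : Ctx α H σ) {y : S ⊕ Y} {n0 : ℤ} {q : S} (hq : U σ α n0 y = Sum.inl q)
    (h : ∀ n ≥ n0, ∀ z : S, z = q + (n - n0) • α →
      U σ α 1 (Sum.inl z) = Sum.inl (z + α)) : Pos σ α y (q - n0 • α) := by
  have : ∀ n ≥ n0, U σ α n y = Sum.inl (q + (n - n0) • α) := by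
    intro n hn
    induction n, hn using Int.le_induction with
    | base => simp [hq]
    | succ n hn ih =>
      rw [add_comm n 1, ← c.U_add, ih, h n hn _ rfl]
      congr 1
      have : 1 + n - n0 = (n - n0) + 1 := by ring
      rw [this, add_smul, one_smul, add_assoc]
  filter_upwards [eventually_ge_atTop n0] with n hn
  rw [this n hn, sub_smul]
  congr 1
  abel

lemma Ctx.exists_pos (c : Ctx α H σ) {y : S ⊕ Y} (hy : Free σ α y) : ∃ p, Pos σ α y p := by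
  have hinj : Function.Injective fun n : ℤ => U σ α n y := fun n m h => c.inj hy h
  have h1 := atTop_le_cofinite ((c.near _ (c.trm 1)).preimage hinj.injOn).compl_mem_cofinite
  obtain ⟨n0, hn0⟩ := eventually_atTop.1 h1
  have h2 : ∀ n ≥ n0, U σ α 1 (U σ α n y) = Sum.map (tr ((1 : ℤ) • α)) id (U σ α n y) := by
    intro n hn
    have := hn0 n hn
    simpa [U] using this
  cases hq : U σ α n0 y with
  | inr w =>
    have := h2 n0 le_rfl
    rw [c.U_add, hq, Sum.map_inr, id, ← hq] at this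
    have := c.inj hy this
    omega
  | inl q =>
    have key : ∀ n ≥ n0, U σ α n y = Sum.inl (q + (n - n0) • α) := by
      intro n hn
      induction n, hn using Int.le_induction with
      | base => simp [hq]
      | succ n hn ih =>
        rw [add_comm n 1, ← c.U_add, h2 n hn, ih]
        have : 1 + n - n0 = (n - n0) + 1 := by ring
        rw [this, add_smul]
        simp [add_assoc]
    refine ⟨q - n0 • α, ?_⟩
    filter_upwards [eventually_ge_atTop n0] with n hn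
    rw [key n hn, sub_smul]
    congr 1
    abel

lemma Ctx.exists_zero (c : Ctx α H σ) : ∃ y, Pos σ α y 0 := by
  obtain ⟨n0, hn0⟩ := eventually_atTop.1 (ev_notMem c.inf (c.near _ (c.trm 1)) 0 0)
  refine ⟨U σ α (-n0) (Sum.inl (n0 • α)), ?_⟩
  have := c.ray (y := U σ α (-n0) (Sum.inl (n0 • α))) (n0 := n0) (q := n0 • α)
    (by rw [c.U_add]; simp [c.U_zero]) (by
      intro n hn z hz
      have h1 := hn0 n hn
      have h2 : z = 0 + (n + 0) • α := by rw [hz, sub_smul]; simp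
      rw [← h2] at h1
      simpa [U] using h1)
  simpa using this

lemma Pos.shift {y : S ⊕ Y} {p : S} (hp : Pos σ α y p) (i : ℤ) :
    ∀ᶠ n : ℤ in atTop, U σ α (n + i) y = Sum.inl (p + (n + i) • α) :=
  (tendsto_atTop_add_const_right atTop i tendsto_id).eventually hp

lemma Ctx.free (c : Ctx α H σ) {y : S ⊕ Y} {p : S} (hp : Pos σ α y p) : Free σ α y := by
  intro k hk
  obtain ⟨n, h1, h2⟩ := (hp.and (hp.shift k)).exists
  rw [← c.U_add, hk, h1] at h2
  have h3 : n • α = (n + k) • α := add_left_cancel (Sum.inl_injective h2)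
  rw [add_smul] at h3
  exact zsmul_eq_zero c.inf (by simpa using h3)

lemma Ctx.pos_inj (c : Ctx α H σ) {y y' : S ⊕ Y} {p : S} (hp : Pos σ α y p) (hp' : Pos σ α y' p) :
    y = y' := by
  obtain ⟨n, h1, h2⟩ := (hp.and hp').exists
  exact (U σ α n).injective (h1.trans h2.symm)

def cj (α : S) (n : ℤ) (f : Perm S) : Perm S := tr ((-n) • α) * f * tr (n • α)

lemma cj_apply (n : ℤ) (f : Perm S) (x : S) : cj α n f x = f (x + n • α) - n • α := by
  simp [cj, sub_eq_add_neg]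

lemma Ctx.cj_mem (c : Ctx α H σ) (n : ℤ) {f : Perm S} (hf : f ∈ H) : cj α n f ∈ H :=
  H.mul_mem (H.mul_mem (c.trm _) hf) (c.trm _)

lemma Ctx.cj_act (c : Ctx α H σ) (n : ℤ) {f : Perm S} (hf : f ∈ H) (y : S ⊕ Y) :
    σ (cj α n f) y = U σ α (-n) (σ f (U σ α n y)) := by
  rw [cj, c.mul _ (H.mul_mem (c.trm _) hf) _ (c.trm _), c.mul _ (c.trm _) _ hf]
  rfl

lemma Ctx.far (c : Ctx α H σ) {y : S ⊕ Y} {p : S} (hp : Pos σ α y p) {f : Perm S} (hf : f ∈ H)
    (i j : ℤ) : ∀ᶠ n : ℤ in atTop, f (p + (n + i) • α) = p + (n + j) • α →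
      σ (cj α n f) (U σ α i y) = U σ α j y := by
  filter_upwards [hp.shift i, hp.shift j, ev_notMem c.inf (c.near f hf) p i] with n h1 h2 h3 h4
  have h5 : σ f (Sum.inl (p + (n + i) • α)) = Sum.inl (f (p + (n + i) • α)) := by simpa using h3
  rw [c.cj_act n hf, c.U_add, h1, h5, h4, ← h2, c.U_add]
  congr 2
  ring

lemma Ctx.comm (c : Ctx α H σ) {f g : Perm S} (hf : f ∈ H) (hg : g ∈ H)
    (h : ∀ x, f x = x ∨ g x = x) (y : S ⊕ Y) : σ f (σ g y) = σ g (σ f y) := by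
  have : f * g = g * f := Perm.Disjoint.commute h
  have h2 := c.mul f hf g hg
  rw [this, c.mul g hg f hf] at h2
  exact (congrArg (fun e : Perm (S ⊕ Y) => e y) h2).symm

lemma Ctx.small (c : Ctx α H σ) {ρ : ℝ} (hρ : 0 < ρ) :
    ∃ η : ℝ, 0 < η ∧ η < ρ ∧ ∃ n : ℤ, (η : S) = n • α := by
  obtain ⟨n, η, hη, h⟩ := (freq c.inf (isOpen_arc 0 ρ) ⟨_, ρ / 2, ⟨by linarith, by linarith⟩, rfl⟩
    0).exists
  exact ⟨η, hη.1, hη.2, n, by simpa using h⟩

lemma Ctx.exists_f (c : Ctx α H σ) {ρ : ℝ} (hρ : 0 < ρ) (k : ℤ) (hk : 2 * ρ ≤ ‖k • α‖) :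
    ∃ (W : Set S) (f : Perm S), IsOpen W ∧ W.Nonempty ∧ (∀ x ∈ W, ‖x‖ < ρ) ∧ IsSw W (k • α) f ∧
      f ∈ H := by
  obtain ⟨η, h0, h1, hη⟩ := c.small hρ
  have hW : ∀ x ∈ arc 0 η, ‖x‖ < ρ := fun x hx =>
    (norm_carc (by linarith) le_rfl (arc_sub _ _ hx)).trans_lt h1
  obtain ⟨f, hf, -⟩ := exists_sw (W := arc 0 η) (γ := k • α) (fun x hx hx' => by
    have := norm_sub_le (x + k • α) x
    rw [add_sub_cancel_left] at this
    linarith [hW _ hx, hW _ hx'])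
  exact ⟨arc 0 η, f, isOpen_arc _ _, ⟨_, η / 2, ⟨by linarith, by linarith⟩, rfl⟩, hW, hf,
    c.sw 0 η ⟨0, by simp⟩ hη k f hf⟩

lemma IsSw.fix {W : Set S} {γ : S} {f : Perm S} (hf : IsSw W γ f) {ρ : ℝ} (hW : ∀ x ∈ W, ‖x‖ < ρ)
    {x : S} (hx : ρ + ‖γ‖ ≤ ‖x‖) : f x = x := by
  refine hf.2.2 x (fun h => ?_) (fun h => ?_)
  · linarith [hW _ h, norm_nonneg γ]
  · have := norm_add_le (x - γ) γ
    rw [sub_add_cancel] at this
    linarith [hW _ h]

lemma Ctx.freq_small (c : Ctx α H σ) {δ : ℝ} (hδ : 0 < δ) :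
    ∃ᶠ k : ℤ in atTop, ‖k • α‖ < δ ∧ 0 < ‖k • α‖ ∧ 0 < ‖(2 * k) • α‖ := by
  have h1 := freq c.inf (Metric.isOpen_ball (x := (0 : S)) (ε := δ)) ⟨0, by simpa using hδ⟩ 0
  refine (h1.and_eventually (eventually_gt_atTop 0)).mono ?_
  rintro k ⟨h2, h3⟩
  refine ⟨by simpa using h2, norm_pos_iff.2 fun h => ?_, norm_pos_iff.2 fun h => ?_⟩
  · have := zsmul_eq_zero c.inf h; omega
  · have := zsmul_eq_zero c.inf h; omega

lemma Ctx.claimC (c : Ctx α H σ) {y : S ⊕ Y} {p : S} (hp : Pos σ α y p) {g : Perm S} (hg : g ∈ H)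
    {δ : ℝ} (hδ : 0 < δ) (hid : ∀ x, ‖x - p‖ < δ → g x = x) : σ g y = y := by
  obtain ⟨k, ⟨hk1, hk2, -⟩, hk3, hk4⟩ := ((c.freq_small (half_pos hδ)).and_eventually
    (hp.and (ev_notMem c.inf (c.near g hg) p 0))).exists
  have h1 : σ g (U σ α k y) = U σ α k y := by
    have : σ g (Sum.inl (p + k • α)) = Sum.inl (g (p + k • α)) := by simpa using hk4
    rw [hk3, this, hid _ (by simp; linarith)]
  obtain ⟨ρ, hρ, hρ1, hρ2⟩ : ∃ ρ : ℝ, 0 < ρ ∧ 2 * ρ ≤ ‖k • α‖ ∧ 4 * ρ ≤ δ :=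
    ⟨min (‖k • α‖ / 2) (δ / 4), by positivity, by linarith [min_le_left (‖k • α‖ / 2) (δ / 4)],
      by linarith [min_le_right (‖k • α‖ / 2) (δ / 4)]⟩
  obtain ⟨W, f, hWo, hWn, hW, hf, hfH⟩ := c.exists_f hρ k hρ1
  obtain ⟨n, hn1, hn2⟩ := ((freq c.inf hWo hWn p).and_eventually (c.far hp hfH 0 k)).exists
  have h2 : σ (cj α n f) y = U σ α k y := by
    have := hn2 (by rw [add_zero, hf.1 _ hn1, add_smul, add_assoc])
    rwa [c.U_zero] at this
  have h3 := c.comm hg (c.cj_mem n hfH) (fun x => by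
    by_cases hx : ‖x - p‖ < δ
    · exact Or.inl (hid x hx)
    · right
      rw [cj_apply, hf.fix hW, add_sub_cancel_right]
      have := norm_sub_le (x + n • α) (p + n • α)
      rw [add_sub_add_right_eq_sub] at this
      linarith [hW _ hn1]) y
  rw [h2, h1, ← h2] at h3
  exact ((σ (cj α n f)).injective h3).symm

lemma Ctx.claimC' (c : Ctx α H σ) {y : S ⊕ Y} {p : S} (hp : Pos σ α y p) {g : Perm S} (hg : g ∈ H)
    {K : Set S} (hK : IsClosed K) (hpK : p ∉ K) (hid : ∀ x ∉ K, g x = x) : σ g y = y := by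
  obtain ⟨δ, hδ, h⟩ := Metric.isOpen_iff.1 hK.isOpen_compl p hpK
  exact c.claimC hp hg hδ fun x hx => hid x (h (by simpa [dist_eq_norm] using hx))

lemma Ctx.claimP (c : Ctx α H σ) {y : S ⊕ Y} {p q : S} (hp : Pos σ α y p) (hq : Pos σ (-α) y q) :
    p = q := by
  by_contra hne
  have hδ : 0 < ‖p - q‖ := norm_pos_iff.2 (sub_ne_zero.2 hne)
  obtain ⟨δ, hδe⟩ : ∃ δ, δ = ‖p - q‖ := ⟨_, rfl⟩
  rw [← hδe] at hδ
  obtain ⟨k, hk1, hk2, hk3⟩ := (c.freq_small (δ := δ / 8) (by positivity)).exists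
  obtain ⟨ρ, hρ, hρ1, hρ2, hρ3⟩ : ∃ ρ : ℝ, 0 < ρ ∧ 2 * ρ ≤ ‖k • α‖ ∧ 2 * ρ ≤ ‖(2 * k) • α‖ ∧
      8 * ρ ≤ δ := by
    refine ⟨min (min (‖k • α‖ / 2) (‖(2 * k) • α‖ / 2)) (δ / 8), by positivity, ?_, ?_, ?_⟩
    · linarith [min_le_left (min (‖k • α‖ / 2) (‖(2 * k) • α‖ / 2)) (δ / 8),
        min_le_left (‖k • α‖ / 2) (‖(2 * k) • α‖ / 2)]
    · linarith [min_le_left (min (‖k • α‖ / 2) (‖(2 * k) • α‖ / 2)) (δ / 8),
        min_le_right (‖k • α‖ / 2) (‖(2 * k) • α‖ / 2)]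
    · linarith [min_le_right (min (‖k • α‖ / 2) (‖(2 * k) • α‖ / 2)) (δ / 8)]
  obtain ⟨W, f, hWo, hWn, hW, hf, hfH⟩ := c.exists_f hρ k hρ1
  have hsep : ∀ x ∈ W, ∀ z ∈ W, ∀ j : ℤ, 2 * ρ ≤ ‖j • α‖ → x - z ≠ j • α := by
    intro x hx z hz j hj h
    have := norm_sub_le x z
    rw [h] at this
    linarith [hW _ hx, hW _ hz]
  obtain ⟨n, hn1, hn2, hn3⟩ := ((freq c.inf hWo hWn p).and_eventually
    ((c.far hp hfH 0 k).and (c.far hp hfH (-k) (-k)))).exists
  obtain ⟨m, hm1, hm2, hm3⟩ := ((freq c.symm.inf hWo hWn (q - k • α)).and_eventually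
    ((c.symm.far hq hfH 0 k).and (c.symm.far hq hfH (-k) (-k)))).exists
  have a1 : σ (cj α n f) y = U σ α k y := by
    have := hn2 (by rw [add_zero, hf.1 _ hn1, add_smul, add_assoc])
    rwa [c.U_zero] at this
  have a2 : σ (cj α n f) (U σ α (-k) y) = U σ α (-k) y := by
    refine hn3 (hf.2.2 _ (fun h => hsep _ hn1 _ h k hρ1 ?_) (fun h => hsep _ hn1 _ h _ hρ2 ?_))
    · module
    · module
  have a3 : σ (cj (-α) m f) y = U σ α (-k) y := by
    have := hm2 (by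
      rw [hf.2.1 _ (by convert hm1 using 1; module)]
      module)
    rwa [c.symm.U_zero, U_neg] at this
  have a4 : σ (cj (-α) m f) (U σ α k y) = U σ α k y := by
    have := hm3 (hf.2.2 _ (fun h => hsep _ h _ hm1 _ hρ2 (by module))
      (fun h => hsep _ h _ hm1 _ hρ1 (by module)))
    rwa [U_neg, neg_neg] at this
  have a5 := c.comm (c.cj_mem n hfH) (c.symm.cj_mem m hfH) (fun x => by
    by_cases hx : ‖x - p‖ < δ / 2
    · right
      rw [cj_apply, hf.fix hW, add_sub_cancel_right]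
      have e1 := norm_sub_le (x - p) (x + m • -α)
      have e2 := norm_add_le (x - p - (x + m • -α)) (q - k • α + m • -α)
      have e3 := norm_add_le (x - p - (x + m • -α) + (q - k • α + m • -α)) (k • α)
      have e4 : x - p - (x + m • -α) + (q - k • α + m • -α) + k • α = x - p - (x - q) + (x - p)
        - (x - p) := by module
      have e5 : ‖p - q‖ ≤ ‖x - p‖ + ‖x - q‖ := by
        have := norm_sub_le (x - q) (x - p)
        rw [show x - q - (x - p) = p - q by abel] at this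
        linarith
      have e6 := norm_add_le (x + m • -α - (q - k • α + m • -α)) (-(k • α))
      rw [show x + m • -α - (q - k • α + m • -α) + -(k • α) = x - q by module, norm_neg] at e6
      have e7 := norm_sub_le (x + m • -α) (q - k • α + m • -α)
      linarith [hW _ hm1]
    · left
      rw [cj_apply, hf.fix hW, add_sub_cancel_right]
      have := norm_sub_le (x + n • α) (p + n • α)
      rw [add_sub_add_right_eq_sub] at this
      linarith [hW _ hn1]) y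
  rw [a3, a2, a1, a4] at a5
  have := c.inj (c.free hp) a5
  have h0 : k = 0 := by omega
  simp [h0] at hk2

end Pool.Agent.H.MP_ad338c_an
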