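import Pool.Agent.H.MP_ad338c_an.A

set_option autoImplicit false

open Filter Set Topology Equiv

namespace Pool.Agent.H.MP_ad338c_an

variable {Y : Type*} {α : S} {H : Subgroup (Perm S)} {σ : Perm S → Perm (S ⊕ Y)}

lemma Ctx.neg_fix (c : Ctx α H σ) {y : S ⊕ Y} (hp : Pos σ α y 0) : σ (Equiv.neg S) y = y := by
  obtain ⟨q, hq⟩ := c.symm.exists_pos (y := y) (fun n hn => by
    rw [U_neg] at hn
    have := c.free hp _ hn
    omega)
  have h0 : 0 = q := c.claimP hp hq
  subst h0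
  obtain ⟨n, h1, h2, h3⟩ := (hp.and (hq.and (ev_notMem c.inf (c.near _ c.neg) 0 0))).exists
  have h4 : σ (Equiv.neg S) (Sum.inl (n • α)) = Sum.inl (-(n • α)) := by simpa using h3
  have h5 : Equiv.neg S * tr (n • α) = tr ((-n) • α) * Equiv.neg S := by
    ext x; simp; abel
  have h6 := c.mul _ c.neg _ (c.trm n)
  rw [h5, c.mul _ (c.trm _) _ c.neg] at h6
  have h7 : U σ α (-n) (σ (Equiv.neg S) y) = σ (Equiv.neg S) (U σ α n y) :=
    congrArg (fun e : Perm (S ⊕ Y) => e y) h6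
  rw [U_neg] at h2
  rw [h1, zero_add, h4] at h7
  apply (U σ α (-n)).injective
  rw [h7, h2]
  simp

lemma norm_coe_small {t : ℝ} (h : |t| ≤ 1 / 2) : ‖(t : S)‖ = |t| :=
  (AddCircle.norm_coe_eq_abs_iff (p := (1 : ℝ)) one_ne_zero).2 (by simpa using h)

lemma Ctx.claimB (c : Ctx α H σ) {y : S ⊕ Y} (hp : Pos σ α y 0) {f : Perm S} (hf : f ∈ H)
    (hff : f * f = 1) (hf0 : f 0 = 0) {K : Set S} (hK : IsClosed K) (hKs : ∀ x ∈ K, ‖x‖ < 1 / 8)
    (hid : ∀ x ∉ K, f x = x) (hKK : ∀ x ∈ K, -x ∈ K → x = 0) : σ f y = y := by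
  by_contra hv
  obtain ⟨v, hve⟩ : ∃ v, v = σ f y := ⟨_, rfl⟩
  rw [← hve] at hv
  have hinv : σ f v = y := by
    have := c.mul f hf f hf
    rw [hff, c.one] at this
    have h2 := congrArg (fun e : Perm (S ⊕ Y) => e y) this
    rw [hve]
    exact h2.symm
  by_cases hfree : Free σ α v
  · obtain ⟨q, hq⟩ := c.exists_pos hfree
    have hq0 : q ≠ 0 := by
      rintro rfl
      exact hv (c.pos_inj hq hp)
    have hqK : q ∈ K := by
      by_contra h
      have := c.claimC' hq hf hK h hid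
      exact hv (this.symm.trans hinv)
    have hf' : Equiv.neg S * f * Equiv.neg S ∈ H := H.mul_mem (H.mul_mem c.neg hf) c.neg
    have hid' : ∀ x, -x ∉ K → (Equiv.neg S * f * Equiv.neg S) x = x := by
      intro x hx
      simp [hid _ hx]
    have h1 : σ (Equiv.neg S * f * Equiv.neg S) v = v :=
      c.claimC' hq hf' (K := (fun x : S => -x) ⁻¹' K) (hK.preimage continuous_neg)
        (fun h => hq0 (hKK q hqK h)) hid'
    have h2 := c.comm hf hf' (fun x => by
      by_cases hx : x ∈ K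
      · by_cases hx' : -x ∈ K
        · left
          rw [hKK x hx hx', hf0]
        · exact Or.inr (hid' x hx')
      · exact Or.inl (hid x hx)) y
    rw [← hve, h1, hve] at h2
    have h3 := (σ f).injective h2
    rw [c.mul _ (H.mul_mem c.neg hf) _ c.neg, c.mul _ c.neg _ hf] at h3
    have h4 : σ (Equiv.neg S) (σ f (σ (Equiv.neg S) y)) = y := h3
    rw [c.neg_fix hp, ← hve] at h4
    exact hv ((σ (Equiv.neg S)).injective (h4.trans (c.neg_fix hp).symm))
  · simp only [Free, not_forall] at hfree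
    obtain ⟨N, hN, hN0⟩ := hfree
    have hN' : U σ α (-N) v = v := by
      conv_lhs => rw [← hN]
      rw [c.U_add]
      simp [c.U_zero]
    have hall : ∀ m : ℤ, U σ α (m * N) v = v := by
      intro m
      induction m using Int.induction_on with
      | zero => simp [c.U_zero]
      | succ i ih => rw [add_mul, one_mul, ← c.U_add, hN, ih]
      | pred i ih => rw [sub_mul, one_mul, sub_eq_add_neg, ← c.U_add, hN', ih]
    have hNinf : ¬ IsOfFinAddOrder (N • α) := by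
      intro h
      obtain ⟨n, hn, h⟩ := isOfFinAddOrder_iff_zsmul_eq_zero.1 h
      rw [smul_smul] at h
      exact mul_ne_zero hn hN0 (zsmul_eq_zero c.inf h)
    obtain ⟨m, hm⟩ := (freq hNinf (U := {x : S | 1 / 4 < ‖x‖})
      (isOpen_lt continuous_const continuous_norm) ⟨((1 / 2 : ℝ) : S), by
        simp only [mem_ofPred_eq]
        rw [norm_coe_small (by norm_num [abs_of_pos])]
        norm_num [abs_of_pos]⟩ 0).exists
    simp only [zero_add, smul_smul, mem_ofPred_eq] at hm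
    have hid' : ∀ x, x + (m * N) • α ∉ K → cj α (m * N) f x = x := by
      intro x hx
      rw [cj_apply, hid _ hx, add_sub_cancel_right]
    have h1 : σ (cj α (m * N) f) y = y :=
      c.claimC' hp (c.cj_mem _ hf) (K := (fun x : S => x + (m * N) • α) ⁻¹' K)
        (hK.preimage (by fun_prop)) (fun h => by
          have := hKs _ h
          simp only [zero_add] at this
          linarith) hid'
    have h2 := c.comm hf (c.cj_mem (m * N) hf) (fun x => by
      by_cases hx : x ∈ K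
      · right
        refine hid' x fun h => ?_
        have := norm_sub_le (x + (m * N) • α) x
        rw [add_sub_cancel_left] at this
        linarith [hKs _ h, hKs _ hx]
      · exact Or.inl (hid x hx)) y
    rw [h1, ← hve, c.cj_act _ hf, hall, hinv] at h2
    rw [h2, c.U_add] at hN
    have := c.inj (c.free hp) hN
    omega

lemma Ctx.half (c : Ctx α H σ) {y : S ⊕ Y} (hp : Pos σ α y 0) {a b η : ℝ} {k : ℤ}
    (ha : -η ≤ a) (hb : b ≤ η) (h1 : 2 * η < ‖k • α‖) (h2 : 2 * η < ‖(2 * k) • α‖)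
    (h3 : ‖k • α‖ < 1 / 16) (h4 : ∀ x ∈ carc a b, -x ∈ carc a b → x = 0) (h5 : 0 ∉ arc a b)
    (hη : 0 < η) (hA : ∃ n : ℤ, (a : S) = n • α) (hB : ∃ n : ℤ, (b : S) = n • α) :
    ∃ f ∈ H, IsSw (arc a b) (k • α) f ∧ σ f y = y := by
  have hn : ∀ x ∈ carc a b, ‖x‖ ≤ η := fun x hx => norm_carc ha hb hx
  have hsep : ∀ x ∈ carc a b, ∀ z ∈ carc a b, ∀ γ : S, 2 * η < ‖γ‖ → x + z ≠ -γ := by
    intro x hx z hz γ hγ h
    have := norm_add_le x z
    rw [h, norm_neg] at this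
    linarith [hn _ hx, hn _ hz]
  obtain ⟨f, hf, hff⟩ := exists_sw (W := arc a b) (γ := k • α) (fun x hx hx' => by
    have := norm_sub_le (x + k • α) x
    rw [add_sub_cancel_left] at this
    linarith [hn _ (arc_sub _ _ hx), hn _ (arc_sub _ _ hx')])
  have hfH := c.sw a b hA hB k f hf
  refine ⟨f, hfH, hf, ?_⟩
  refine c.claimB hp hfH hff (hf.2.2 0 h5 fun h => ?_)
    (K := carc a b ∪ (fun x : S => x - k • α) ⁻¹' carc a b)
    ((isClosed_carc _ _).union ((isClosed_carc _ _).preimage (by fun_prop))) ?_ ?_ ?_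
  · have := hn _ (arc_sub _ _ h)
    rw [zero_sub, norm_neg] at this
    linarith
  · rintro x (hx | hx)
    · linarith [hn _ hx]
    · have := norm_add_le (x - k • α) (k • α)
      rw [sub_add_cancel] at this
      linarith [hn _ hx]
  · intro x hx
    exact hf.2.2 x (fun h => hx (Or.inl (arc_sub _ _ h))) (fun h => hx (Or.inr (arc_sub _ _ h)))
  · rintro x (hx | hx) (hx' | hx')
    · exact h4 x hx hx'
    · exact absurd (by beta_reduce; abel) (hsep _ hx _ hx' _ h1)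
    · exact absurd (by beta_reduce; abel) (hsep _ hx _ hx' _ h1)
    · exact absurd (by beta_reduce; module) (hsep _ hx _ hx' _ h2)

lemma coe_zero_small {t : ℝ} (h : |t| ≤ 1 / 2) (h0 : (t : S) = 0) : t = 0 := by
  have := norm_coe_small h
  rw [h0, norm_zero] at this
  exact abs_eq_zero.1 this.symm

theorem Ctx.false (c : Ctx α H σ) : False := by
  classical
  obtain ⟨y, hp⟩ := c.exists_zero
  obtain ⟨k, hk1, hk2, hk3⟩ := (c.freq_small (δ := 1 / 16) (by norm_num)).exists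
  obtain ⟨η, h0, h1, n, hn⟩ := c.small (ρ := min (‖k • α‖ / 2) (‖(2 * k) • α‖ / 2)) (by positivity)
  have h2 : 2 * η < ‖k • α‖ := by linarith [min_le_left (‖k • α‖ / 2) (‖(2 * k) • α‖ / 2)]
  have h3 : 2 * η < ‖(2 * k) • α‖ := by linarith [min_le_right (‖k • α‖ / 2) (‖(2 * k) • α‖ / 2)]
  obtain ⟨f, hfH, hf, hfy⟩ := c.half hp (a := 0) (b := η) (by linarith) le_rfl h2 h3 hk1 (by
      rintro _ ⟨s, hs, rfl⟩ ⟨t, ht, h⟩
      have : s + t = 0 := coe_zero_small (by rw [abs_le]; constructor <;> linarith [hs.1, hs.2, ht.1, ht.2])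
        (by rw [AddCircle.coe_add, h]; simp)
      have : s = 0 := by linarith [hs.1, ht.1]
      simp [this]) (by
      rintro ⟨s, hs, h⟩
      have := coe_zero_small (by rw [abs_le]; constructor <;> linarith [hs.1, hs.2]) h
      linarith [hs.1]) h0 ⟨0, by simp⟩ ⟨n, hn⟩
  obtain ⟨g, hgH, hg, hgy⟩ := c.half hp (a := -η) (b := 0) le_rfl h0.le h2 h3 hk1 (by
      rintro _ ⟨s, hs, rfl⟩ ⟨t, ht, h⟩
      have : s + t = 0 := coe_zero_small (by rw [abs_le]; constructor <;> linarith [hs.1, hs.2, ht.1, ht.2])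
        (by rw [AddCircle.coe_add, h]; simp)
      have : s = 0 := by linarith [hs.2, ht.2]
      simp [this]) (by
      rintro ⟨s, hs, h⟩
      have := coe_zero_small (by rw [abs_le]; constructor <;> linarith [hs.1, hs.2]) h
      linarith [hs.2]) h0 ⟨-n, by simp [hn]⟩ ⟨0, by simp⟩
  obtain ⟨e, he⟩ : ∃ e, e = tr ((-k) • α) * f * g := ⟨_, rfl⟩
  have heH : e ∈ H := he ▸ H.mul_mem (H.mul_mem (c.trm _) hfH) hgH
  have hey : σ e y = U σ α (-k) y := by
    rw [he, c.mul _ (H.mul_mem (c.trm _) hfH) _ hgH, c.mul _ (c.trm _) _ hfH]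
    change U σ α (-k) (σ f (σ g y)) = _
    rw [hgy, hfy]
  have hn1 : ∀ x ∈ arc 0 η, ‖x‖ ≤ η := fun x hx => norm_carc (by linarith) le_rfl (arc_sub _ _ hx)
  have hn2 : ∀ x ∈ arc (-η) 0, ‖x‖ ≤ η := fun x hx => norm_carc le_rfl h0.le (arc_sub _ _ hx)
  have hdis : ∀ x ∈ arc 0 η, x ∉ arc (-η) 0 := by
    rintro _ ⟨s, hs, rfl⟩ ⟨t, ht, h⟩
    have : s - t = 0 := coe_zero_small (by rw [abs_le]; constructor <;> linarith [hs.1, hs.2, ht.1, ht.2])
      (by rw [AddCircle.coe_sub, h]; simp)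
    linarith [hs.1, ht.2]
  have hid : ∀ x ∈ arc (-η) η, x ≠ 0 → e x = x := by
    rintro x ⟨s, hs, hsx⟩ hx
    rw [he]
    change f (g x) + (-k) • α = x
    rcases lt_trichotomy s 0 with h | h | h
    · have hx1 : x ∈ arc (-η) 0 := ⟨s, ⟨hs.1, h⟩, hsx⟩
      rw [hg.1 x hx1, hf.2.2 _ (fun h' => ?_) (fun h' => ?_)]
      · simp
      · have := norm_sub_le (x + k • α) x
        rw [add_sub_cancel_left] at this
        linarith [hn1 _ h', hn2 _ hx1]
      · rw [add_sub_cancel_right] at h'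
        exact hdis x h' hx1
    · exact absurd (by rw [← hsx, h]; simp) hx
    · have hx1 : x ∈ arc 0 η := ⟨s, ⟨h, hs.2⟩, hsx⟩
      rw [hg.2.2 x (hdis x hx1) (fun h' => ?_), hf.1 x hx1]
      · simp
      · have := norm_sub_le x (x - k • α)
        rw [sub_sub_cancel] at this
        linarith [hn1 _ hx1, hn2 _ h']
  obtain ⟨hsH, hs1⟩ := c.fin (Equiv.swap 0 (e.symm 0)) ((Set.toFinite {0, e.symm 0}).subset (by
    intro x hx
    by_contra h
    simp only [mem_insert_iff, mem_singleton_iff, not_or] at h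
    exact hx (Equiv.swap_apply_of_ne_of_ne h.1 h.2)))
  have h5 := c.claimC' hp (H.mul_mem heH hsH) (K := (arc (-η) η)ᶜ) (isOpen_arc _ _).isClosed_compl
    (fun h => h ⟨0, ⟨by linarith, h0⟩, by simp⟩) (by
      intro x hx
      rw [notMem_compl_iff] at hx
      by_cases hx0 : x = 0
      · simp [hx0]
      · have : x ≠ e.symm 0 := by
          intro h
          have h' := hid x hx hx0
          rw [h, Equiv.apply_symm_apply] at h'
          exact hx0 (h.trans h'.symm)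
        rw [Perm.mul_apply, Equiv.swap_apply_of_ne_of_ne hx0 this, hid x hx hx0])
  rw [c.mul _ heH _ hsH, hs1, mul_one, hey] at h5
  have := c.free hp _ h5
  have hk0 : k = 0 := by omega
  simp [hk0] at hk2

def PI (Λ : AddSubgroup S) (f : Perm S) : Prop :=
  ∃ F : Set S, F.Finite ∧ F ⊆ Λ ∧ ∀ x ∉ F, ∃ c ∈ Λ,
    (∀ᶠ y in 𝓝 x, f y = y + c) ∨ (∀ᶠ y in 𝓝 x, f y = -y + c)

def FS : Subgroup (Perm S) := Subgroup.normalClosure {f | {x | f x ≠ x}.Finite}

instance : FS.Normal := Subgroup.normalClosure_normal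

def IET (Λ : AddSubgroup S) : Subgroup (Perm S ⧸ FS) :=
  Subgroup.closure (QuotientGroup.mk '' {f | PI Λ f})

lemma PI_sw {Λ : AddSubgroup S} {a b : ℝ} (ha : (a : S) ∈ Λ) (hb : (b : S) ∈ Λ) {γ : S}
    (hγ : γ ∈ Λ) {f : Perm S} (hf : IsSw (arc a b) γ f) : PI Λ f := by
  refine ⟨{(a : S), (b : S), (a : S) + γ, (b : S) + γ}, Set.toFinite _, ?_, fun x hx => ?_⟩
  · rintro _ (rfl | rfl | rfl | rfl)
    exacts [ha, hb, Λ.add_mem ha hγ, Λ.add_mem hb hγ]
  simp only [mem_insert_iff, mem_singleton_iff, not_or] at hx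
  have key : ∀ z : S, z ≠ a → z ≠ b → z ∉ arc a b → z ∉ carc a b := by
    rintro _ h1 h2 h3 ⟨s, hs, rfl⟩
    refine h3 ⟨s, ⟨lt_of_le_of_ne hs.1 ?_, lt_of_le_of_ne hs.2 ?_⟩, rfl⟩
    · rintro rfl; exact h1 rfl
    · rintro rfl; exact h2 rfl
  have hc : Continuous fun y : S => y - γ := by fun_prop
  by_cases h1 : x ∈ arc a b
  · refine ⟨γ, hγ, Or.inl ?_⟩
    filter_upwards [(isOpen_arc a b).mem_nhds h1] with y hy using hf.1 y hy
  by_cases h2 : x - γ ∈ arc a b
  · refine ⟨-γ, Λ.neg_mem hγ, Or.inl ?_⟩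
    filter_upwards [((isOpen_arc a b).preimage hc).mem_nhds h2] with y hy
    rw [hf.2.1 y hy, sub_eq_add_neg]
  · refine ⟨0, Λ.zero_mem, Or.inl ?_⟩
    have h3 := key x hx.1 hx.2.1 h1
    have h4 := key (x - γ) (fun h => hx.2.2.1 (by rw [← h]; simp))
      (fun h => hx.2.2.2 (by rw [← h]; simp)) h2
    filter_upwards [(isClosed_carc a b).isOpen_compl.mem_nhds h3,
      ((isClosed_carc a b).isOpen_compl.preimage hc).mem_nhds h4] with y hy hy'
    rw [hf.2.2 y (fun h => hy (arc_sub _ _ h)) (fun h => hy' (arc_sub _ _ h)), add_zero]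

theorem stable (Λ : AddSubgroup S) (hΛ : ∃ α ∈ Λ, ¬ IsOfFinAddOrder α) (Y : Type*) :
    ¬ ∃ s : IET Λ →* Perm (S ⊕ Y), ∀ (γ : IET Λ) (f : Perm S),
      (γ : Perm S ⧸ FS) = QuotientGroup.mk f → {x | s γ x ≠ Sum.map f id x}.Finite := by
  classical
  rintro ⟨s, hs⟩
  obtain ⟨α, hα, hinf⟩ := hΛ
  let H : Subgroup (Perm S) := (IET Λ).comap (QuotientGroup.mk' FS)
  have hPI : ∀ f, PI Λ f → f ∈ H := fun f hf => Subgroup.subset_closure ⟨f, hf, rfl⟩
  let σ : Perm S → Perm (S ⊕ Y) := fun f => if h : f ∈ H then s ⟨QuotientGroup.mk f, h⟩ else 1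
  have hσ : ∀ f (h : f ∈ H), σ f = s ⟨QuotientGroup.mk f, h⟩ := fun f h => dif_pos h
  refine Ctx.false (α := α) (H := H) (σ := σ) ⟨hinf, ?_, ?_, ?_, ?_, ?_, ?_⟩
  · intro f hf g hg
    rw [hσ _ (H.mul_mem hf hg), hσ _ hf, hσ _ hg, ← map_mul]
    rfl
  · intro f hf
    rw [hσ _ hf]
    exact hs _ f rfl
  · intro f hf
    have h1 : (QuotientGroup.mk f : Perm S ⧸ FS) = 1 :=
      (QuotientGroup.eq_one_iff f).2 (Subgroup.subset_normalClosure hf)
    have h2 : f ∈ H := by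
      change (QuotientGroup.mk f : Perm S ⧸ FS) ∈ IET Λ
      rw [h1]
      exact one_mem _
    refine ⟨h2, ?_⟩
    rw [hσ _ h2, ← map_one s]
    congr 1
    exact Subtype.ext h1
  · intro n
    exact hPI _ ⟨∅, finite_empty, empty_subset _, fun x _ =>
      ⟨n • α, Λ.zsmul_mem hα n, Or.inl (Eventually.of_forall fun y => rfl)⟩⟩
  · exact hPI _ ⟨∅, finite_empty, empty_subset _, fun x _ =>
      ⟨0, Λ.zero_mem, Or.inr (Eventually.of_forall fun y => by simp)⟩⟩
  · rintro a b ⟨n, hn⟩ ⟨m, hm⟩ k f hf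
    exact hPI _ (PI_sw (hn ▸ Λ.zsmul_mem hα n) (hm ▸ Λ.zsmul_mem hα m) (Λ.zsmul_mem hα k) hf)

def FS' : Subgroup (Perm S) where
  carrier := {f | {x | f x ≠ x}.Finite}
  one_mem' := by simp
  mul_mem' {f g} hf hg := (hf.union hg).subset (by
    intro x hx
    by_contra h
    simp only [mem_union, mem_ofPred_eq, not_or, not_not] at h
    exact hx (by rw [Perm.mul_apply, h.2, h.1]))
  inv_mem' {f} hf := hf.subset (by
    intro x hx h
    exact hx (by rw [Perm.inv_eq_iff_eq]; exact h.symm))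

instance : FS'.Normal := ⟨fun f hf g => (hf.image g).subset (by
  intro x hx
  refine ⟨g⁻¹ x, fun h => hx ?_, by simp⟩
  simp only [Perm.mul_apply]
  rw [h]
  simp)⟩

lemma fin_of_eq {f g : Perm S} (h : (QuotientGroup.mk f : Perm S ⧸ FS) = QuotientGroup.mk g) :
    {x | f x ≠ g x}.Finite := by
  have h1 : f⁻¹ * g ∈ FS := QuotientGroup.eq.1 h
  have h2 : f⁻¹ * g ∈ FS' :=
    Subgroup.normalClosure_le_normal (N := FS') (fun _ h => h) h1
  refine Set.Finite.subset h2 fun x hx h' => hx ?_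
  rw [Perm.mul_apply, Perm.inv_eq_iff_eq] at h'
  exact h'.symm

theorem plain (Λ : AddSubgroup S) (hΛ : ∃ α ∈ Λ, ¬ IsOfFinAddOrder α) :
    ¬ ∃ s : IET Λ →* Perm S, ∀ γ : IET Λ, QuotientGroup.mk (s γ) = (γ : Perm S ⧸ FS) := by
  rintro ⟨s, hs⟩
  refine stable Λ hΛ PEmpty.{1} ⟨((Perm.sumCongrHom S PEmpty).comp (MonoidHom.inl _ _)).comp s,
    fun γ f hf => ?_⟩
  have := fin_of_eq ((hs γ).trans hf)
  refine (this.image Sum.inl).subset ?_
  rintro (x | x) hx
  · exact ⟨x, fun h => hx (by simp [h]), rfl⟩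
  · exact x.elim

end Pool.Agent.H.MP_ad338c_an
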